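import Mathlib
import Pool.Agent.H98.Code.Minor
import Pool.Agent.H98.Code.AA

set_option autoImplicit false

/-!
The hereditary class `HER` passes to covered minors; in a code with `HER` every `z`-free word `≠ 0`
splits or is below a full state (MP_a46c6f_co).
-/

namespace Pool.Agent.H27.AA

open Pool.Agent.H98.Code

section
variable {V : Type} (p : V → Prop) (σ : V → K)

/-- the deleted places of the composed partial state -/
def cE (E : Set {v // p v}) : Set V := {v | (¬ p v ∧ σ v = z) ∨ ∃ h : p v, (⟨v, h⟩ : {v // p v}) ∈ E}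

/-- the state places of the composed partial state -/
def cP (P : Set {v // p v}) : Set V := {v | (¬ p v ∧ σ v ≠ z) ∨ ∃ h : p v, (⟨v, h⟩ : {v // p v}) ∈ P}

open Classical in
/-- the letters of the composed partial state -/
noncomputable def cs (s : {v // p v} → K) : V → K := fun v => if h : p v then s ⟨v, h⟩ else σ v

theorem belowOn_c (h0 : ∀ v, ¬ p v → σ v ≠ 0) (E P : Set {v // p v}) (s : {v // p v} → K)
    (u : V → K) : BelowOn (cE p σ E) (cP p σ P) (cs p σ s) u ↔
      (∀ w, ¬ p w → kf (u w) (σ w) = 0) ∧ BelowOn E P s (fun x => u x.1) := by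
  constructor
  · rintro ⟨h1, h2⟩
    refine ⟨?_, ?_, ?_⟩
    · intro w hw
      by_cases hz : σ w = z
      · rw [hz, kf_z_right]
        exact h1 w (Or.inl ⟨hw, hz⟩)
      · rw [kf_eq_zero_iff _ _ (h0 w hw)]
        have := h2 w (Or.inl ⟨hw, hz⟩)
        rwa [cs, dif_neg hw] at this
    · intro x hx
      exact h1 x.1 (Or.inr ⟨x.2, hx⟩)
    · intro x hx
      have := h2 x.1 (Or.inr ⟨x.2, hx⟩)
      rwa [cs, dif_pos x.2] at this
  · rintro ⟨h1, h2, h3⟩
    refine ⟨?_, ?_⟩
    · rintro v (⟨hv, hz⟩ | ⟨hv, hE⟩)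
      · have := h1 v hv
        rwa [hz, kf_z_right] at this
      · exact h2 ⟨v, hv⟩ hE
    · rintro v (⟨hv, hz⟩ | ⟨hv, hP⟩)
      · have := h1 v hv
        rw [kf_eq_zero_iff _ _ (h0 v hv)] at this
        rwa [cs, dif_neg hv]
      · have := h3 ⟨v, hv⟩ hP
        rwa [cs, dif_pos hv]

/-- `HER` passes to the minor on `{v // p v}` with the letters `σ` outside, if every place outside with a
letter `≠ z` is covered by a word below `σ` which is `0` on `{v // p v}` -/
theorem her_minor {L : Submodule (ZMod 2) (V → K)} (hL : HER L)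
    (h0 : ∀ v, ¬ p v → σ v ≠ 0)
    (hc : ∀ v, ¬ p v → σ v ≠ z → ∃ u ∈ L, (∀ w, p w → u w = 0) ∧
      (∀ w, ¬ p w → kf (u w) (σ w) = 0) ∧ u v ≠ 0) :
    HER (Minor L (fun x : {v // p v} => x.1) σ) := by
  have hr : ∀ v : V, v ∉ Set.range (fun x : {v // p v} => x.1) ↔ ¬ p v := by
    intro v
    constructor
    · intro h hv
      exact h ⟨⟨v, hv⟩, rfl⟩
    · rintro h ⟨x, rfl⟩
      exact h x.2
  have hmem : ∀ u ∈ L, (∀ w, ¬ p w → kf (u w) (σ w) = 0) →
      (fun x : {v // p v} => u x.1) ∈ Minor L (fun x : {v // p v} => x.1) σ :=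
    fun u hu h => ⟨u, hu, fun v hv => h v ((hr v).1 hv), rfl⟩
  intro E P s ⟨hd, hl, hcov⟩ hne
  have hout : ∀ w, w ∉ cE p σ E → w ∉ cP p σ P → ∃ h : p w, (⟨w, h⟩ : {v // p v}) ∉ E ∧
      (⟨w, h⟩ : {v // p v}) ∉ P := by
    intro w hE hP
    by_cases hw : p w
    · exact ⟨hw, fun h => hE (Or.inr ⟨hw, h⟩), fun h => hP (Or.inr ⟨hw, h⟩)⟩
    · exfalso
      by_cases hz : σ w = z
      · exact hE (Or.inl ⟨hw, hz⟩)
      · exact hP (Or.inl ⟨hw, hz⟩)
  have hin : ∀ x : {v // p v}, x ∉ E → x ∉ P → x.1 ∉ cE p σ E ∧ x.1 ∉ cP p σ P := by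
    intro x hE hP
    refine ⟨?_, ?_⟩
    · rintro (⟨h, _⟩ | ⟨h, h'⟩)
      · exact h x.2
      · exact hE h'
    · rintro (⟨h, _⟩ | ⟨h, h'⟩)
      · exact h x.2
      · exact hP h'
  have hC : Pool.Agent.H98.Code.Covered L (cE p σ E) (cP p σ P) (cs p σ s) := by
    refine ⟨?_, ?_, ?_⟩
    · rw [Set.disjoint_left]
      rintro v (⟨hv, hz⟩ | ⟨hv, hE⟩) (⟨hv', hz'⟩ | ⟨hv', hP⟩)
      · exact hz' hz
      · exact hv hv'
      · exact hv' hv
      · exact Set.disjoint_left.1 hd hE hP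
    · rintro v (⟨hv, hz⟩ | ⟨hv, hP⟩)
      · rw [cs, dif_neg hv]
        rcases k_cases (σ v) with h | h | h
        · exact absurd h (h0 v hv)
        · exact absurd h hz
        · exact h
      · rw [cs, dif_pos hv]
        exact hl _ hP
    · rintro v (⟨hv, hz⟩ | ⟨hv, hP⟩)
      · obtain ⟨u, hu, hu0, hu1, hu2⟩ := hc v hv hz
        refine ⟨u, hu, (belowOn_c p σ h0 E P s u).2 ⟨hu1, ?_, ?_⟩, ?_, hu2⟩
        · intro x _
          change (u x.1).1 = 0
          rw [hu0 x.1 x.2]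
          rfl
        · intro x _
          left
          exact hu0 x.1 x.2
        · intro w hE hP
          obtain ⟨hw, _⟩ := hout w hE hP
          exact hu0 w hw
      · obtain ⟨b, ⟨u, hu, hu1, rfl⟩, hb, hb0, hb1⟩ := hcov ⟨v, hv⟩ hP
        refine ⟨u, hu, (belowOn_c p σ h0 E P s u).2 ⟨fun w hw => hu1 w ((hr w).2 hw), hb⟩, ?_, hb1⟩
        intro w hE hP'
        obtain ⟨hw, h1, h2⟩ := hout w hE hP'
        exact hb0 ⟨w, hw⟩ h1 h2
  have hne' : (cE p σ E ∪ cP p σ P).Nonempty := by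
    obtain ⟨x, hx | hx⟩ := hne
    · exact ⟨x.1, Or.inl (Or.inr ⟨x.2, hx⟩)⟩
    · exact ⟨x.1, Or.inr (Or.inr ⟨x.2, hx⟩)⟩
  rcases hL _ _ _ hC hne' with ⟨g, hgE, hgP, u, hu, hb, hg, h⟩ | ⟨ψ, hψ, h⟩
  · left
    obtain ⟨hpg, h1, h2⟩ := hout g hgE hgP
    have hb' := (belowOn_c p σ h0 E P s u).1 hb
    refine ⟨⟨g, hpg⟩, h1, h2, _, hmem u hu hb'.1, hb'.2, hg, ?_⟩
    intro w hE hP hw
    exact h w.1 (hin w hE hP).1 (hin w hE hP).2 fun h' => hw (Subtype.ext h')
  · right
    refine ⟨fun x => ψ x.1, fun x => hψ _, ?_⟩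
    intro x hE hP
    obtain ⟨u, hu, hb, h1, h2⟩ := h x.1 (hin x hE hP).1 (hin x hE hP).2
    have hb' := (belowOn_c p σ h0 E P s u).1 hb
    exact ⟨_, hmem u hu hb'.1, hb'.2, fun w hE hP => h1 w.1 (hin w hE hP).1 (hin w hE hP).2, h2⟩

end

section
variable {V : Type}

/-- a `z`-free word `≠ 0` of a code with `HER` splits or is below a full state -/
theorem split_or_full {L : Submodule (ZMod 2) (V → K)} (hL : HER L) (u : V → K) (hu : u ∈ L)
    (h0 : u ≠ 0) (hz : ZFree u) : (∃ g, Splits L u g) ∨ ∃ D, FullState L D ∧ Below u D := by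
  classical
  have hl : ∀ v, u v ≠ 0 → (u v).1 = 1 := by
    intro v hv
    rcases k_cases (u v) with h | h | h
    · exact absurd h hv
    · exact absurd h (hz v)
    · exact h
  have hb : ∀ v ∈ {v | u v ≠ 0}, u v = 0 ∨ u v = u v := fun _ _ => Or.inr rfl
  have hC : Pool.Agent.H98.Code.Covered L ∅ {v | u v ≠ 0} u := by
    refine ⟨Set.empty_disjoint _, fun v hv => hl v hv, ?_⟩
    intro v hv
    refine ⟨u, hu, ⟨fun _ h => absurd h (Set.notMem_empty _), hb⟩, ?_, hv⟩
    intro w _ hw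
    by_contra h
    exact hw h
  have hne : ((∅ : Set V) ∪ {v | u v ≠ 0}).Nonempty := by
    obtain ⟨v, hv⟩ := Function.ne_iff.1 h0
    exact ⟨v, Or.inr hv⟩
  rcases hL _ _ _ hC hne with ⟨g, _, hgP, c, hc, hbc, hg, h⟩ | ⟨ψ, hψ, h⟩
  · left
    have hug : u g = 0 := by
      by_contra h'
      exact hgP h'
    refine ⟨g, c, hc, c + u, L.add_mem hc hu, ?_, hg, ?_, ?_⟩
    · rw [← add_assoc, w_add_self, zero_add]
    · rw [Pi.add_apply, hg, hug, add_zero]
    · intro v hv
      by_cases h' : u v = 0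
      · left
        exact h v (Set.notMem_empty _) (fun h'' => h'' h') hv
      · rcases hbc.2 v h' with h2 | h2
        · exact Or.inl h2
        · right
          rw [Pi.add_apply, h2, k_add_self]
  · right
    have hout : ∀ v, u v = 0 → v ∉ (∅ : Set V) ∧ v ∉ {v | u v ≠ 0} :=
      fun v hv => ⟨Set.notMem_empty _, fun h' => h' hv⟩
    have hbel : Below u (fun v => if u v = 0 then ψ v else u v) := by
      intro v
      by_cases h' : u v = 0
      · exact Or.inl h'
      · right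
        simp only [if_neg h']
    refine ⟨fun v => if u v = 0 then ψ v else u v, ⟨?_, ?_⟩, hbel⟩
    · intro v
      by_cases h' : u v = 0
      · simp only [if_pos h', hψ]
      · simp only [if_neg h']
        exact hl v h'
    · intro v
      by_cases h' : u v = 0
      · obtain ⟨c, hc, hbc, hc1, hc2⟩ := h v (hout v h').1 (hout v h').2
        refine ⟨c, hc, ?_, hc2⟩
        intro w
        by_cases hw : u w = 0
        · simp only [if_pos hw]
          exact hc1 w (hout w hw).1 (hout w hw).2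
        · simp only [if_neg hw]
          exact hbc.2 w hw
      · exact ⟨u, hu, hbel, h'⟩

end

section
variable {V : Type} [Fintype V]

/-- AA-3: in a code of the class `AA` every `z`-free word `≠ 0` which is `0` somewhere splits -/
theorem aa_splits {L : Submodule (ZMod 2) (V → K)} (h : Pool.Agent.H98.Code.AA L) (u : V → K)
    (hu : u ∈ L) (h0 : u ≠ 0) (hz : ZFree u) (v : V) (hv : u v = 0) : ∃ g, Splits L u g := by
  rcases split_or_full h.her u hu h0 hz with h1 | ⟨D, h1, h2⟩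
  · exact h1
  · rcases h.cor D h1 u hu h2 with h3 | h3
    · exact absurd h3 h0
    · have := h1.1 v
      rw [← h3, hv] at this
      exact absurd this (by decide)

theorem aa_critAt {L : Submodule (ZMod 2) (V → K)} (h : Pool.Agent.H98.Code.AA L) (e : V) :
    CritAt L e :=
  fun u hu h0 hz he => aa_splits h u hu h0 hz e he

end

end Pool.Agent.H27.AA
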