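import Mathlib
import Pool.Agent.H26.TR.Pair
import Pool.Agent.H27.AA.Her

set_option autoImplicit false

/-!
AA-1: the pair codes of a full state at `e` inherit `HER` (MP_a46c6f_co).
-/

namespace Pool.Agent.H27.AA

open Finset Pool.Agent.H98.Code Pool.Agent.H26.TR

variable {V : Type} [Fintype V] [DecidableEq V]
variable {L : Submodule (ZMod 2) (V → K)} {e : V} {D : V → K} {P : Finset (Finset V)}

theorem her_pairCode (h : Hyp L e D) (hP : IsParts L e D P) (hL : HER L) {M : Finset V}
    (hM : M ∈ P) : HER (pairCode L D e M) := by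
  refine her_minor (fun v => v ∈ M) (sig D e) hL (fun v _ => h.sig_ne v) ?_
  intro v hv hz
  have hve : v ≠ e := by
    rintro rfl
    exact hz (by simp [sig])
  obtain ⟨M', hM', hvM'⟩ := hP.cover v hve
  have hne : M' ≠ M := by
    rintro rfl
    exact hv hvM'
  have hd := hP.disj M' hM' M hM hne
  refine ⟨pw D e M', (hP.mem M' hM').2.2, ?_, ?_, ?_⟩
  · intro w hw
    have hwe : w ≠ e := fun h0 => (hP.mem M hM).2.1 (h0 ▸ hw)
    have hwM' : w ∉ M' := fun h1 => Finset.disjoint_left.1 hd h1 hw
    unfold pw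
    rw [if_neg hwe, if_neg hwM']
  · intro w _
    unfold pw sig
    by_cases hwe : w = e
    · rw [if_pos hwe, if_pos hwe, kf_self]
    · rw [if_neg hwe, if_neg hwe]
      by_cases hwM' : w ∈ M'
      · rw [if_pos hwM', kf_self]
      · rw [if_neg hwM', kf_zero_left]
  · unfold pw
    rw [if_neg hve, if_pos hvM']
    exact h.D_ne hve

end Pool.Agent.H27.AA
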